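import Mathlib
import Pool.Agent.H21.TIndepDef

namespace Pool.Agent.Results.MP_c28122_co.Classification

open Pool.Agent.H21.TIndep Finset

def PI (n s a b : ℤ) : Prop := ∀ x y : ℤ, |x + y| < 2 * s → |x - y| < 2 * s → n ∣ x * a + y * b →
  x = 0 ∧ y = 0

theorem pig (w s N : ℕ) (h0 : 0 < N) (h : N < w * s) (a b : ℤ) :
    ∃ x y : ℤ, ¬ (x = 0 ∧ y = 0) ∧ |x + y| < w ∧ |x - y| < 2 * s ∧ (N : ℤ) ∣ x * a + y * b := by
  haveI : NeZero N := ⟨h0.ne'⟩
  obtain ⟨⟨u, k⟩, h1, ⟨v, l⟩, h2, h3, h4⟩ := exists_ne_map_eq_of_card_lt_of_maps_to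
    (s := range w ×ˢ range s) (t := univ (α := ZMod N)) (by simpa using h)
    (f := fun p => (((((p.1 : ℤ) + 1) / 2 + p.2) * a + ((p.1 : ℤ) / 2 - p.2) * b : ℤ) : ZMod N))
    fun _ _ => by simp
  simp only [mem_product, mem_range, ne_eq, Prod.mk.injEq] at h1 h2 h3
  rw [ZMod.intCast_eq_intCast_iff_dvd_sub] at h4
  refine ⟨((v : ℤ) + 1) / 2 + l - (((u : ℤ) + 1) / 2 + k), (v : ℤ) / 2 - l - ((u : ℤ) / 2 - k),
    by omega, abs_lt.2 (by omega), abs_lt.2 (by omega), ?_⟩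
  convert h4 using 1; ring

theorem low {s N : ℕ} {h a b : ℤ} (h0 : 0 < N) (hP : PI (N * h) s a b) (ha : h ∣ a) (hb : h ∣ b) :
    2 * s * s ≤ N := by
  by_contra hc
  obtain ⟨a, rfl⟩ := ha
  obtain ⟨b, rfl⟩ := hb
  obtain ⟨x, y, h1, h2, h3, c, h4⟩ := pig (2 * s) s N h0 (by omega) a b
  exact h1 (hP x y (by exact_mod_cast h2) h3 ⟨c, by linear_combination h * h4⟩)

theorem edge {s n : ℕ} {a b : ℤ} (h0 : 0 < n) (hP : PI n s a b) (hn : n < (2 * s + 1) * s) :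
    ∃ q : ℤ, |q| < s ∧ (n : ℤ) ∣ (s + q) * a + (s - q) * b := by
  obtain ⟨x, y, h1, h2, h3, h4⟩ := pig (2 * s + 1) s n h0 hn a b
  have h5 : ¬ |x + y| < 2 * s := fun h => h1 (hP x y h h3 h4)
  push_cast at h2
  rw [abs_lt] at h2 h3 h5
  by_cases h : x + y = 2 * s
  · exact ⟨x - s, abs_lt.2 (by omega), by convert h4 using 2 <;> congr 1 <;> omega⟩
  · refine ⟨-x - s, abs_lt.2 (by omega), ?_⟩
    have : (s + (-x - s)) * a + (s - (-x - s)) * b = -(x * a + y * b) := by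
      rw [show y = -x - 2 * s by omega]; ring
    rw [this]; exact h4.neg_right

theorem nec {s n : ℕ} {a b : ℤ} (h0 : 0 < n) (hP : PI n s a b) (hn : n < (2 * s + 1) * s) :
    2 ∣ n ∧ (2 ∣ s ∨ ¬ 4 ∣ n) := by
  obtain ⟨q, hq, h1⟩ := edge h0 hP hn
  obtain ⟨r, hr, h2⟩ := edge (a := a) (b := -b) h0 (fun x y h1 h2 h3 => by
    have := hP x (-y) (by rwa [← sub_eq_add_neg]) (by rwa [sub_neg_eq_add]) (by simpa using h3)
    omega) hn
  rw [abs_lt] at hq hr
  have hqr : q * r ≤ 0 := by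
    by_contra hc
    rcases pos_and_pos_or_neg_and_neg_of_mul_pos (not_le.1 hc) with ⟨c1, c2⟩ | ⟨c1, c2⟩
    · have := hP (q - r) (2 * s - q - r) (abs_lt.2 (by omega)) (abs_lt.2 (by omega))
        ((h1.sub h2).trans (dvd_of_eq (by ring)))
      omega
    · have := hP (2 * s + q + r) (r - q) (abs_lt.2 (by omega)) (abs_lt.2 (by omega))
        ((h1.add h2).trans (dvd_of_eq (by ring)))
      omega
  have hD : (n : ℤ) = 2 * s * s - 2 * (q * r) := by
    set D : ℤ := 2 * s * s - 2 * (q * r) with hD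
    have a1 : (n : ℤ) ∣ D * a := 
      ((h1.mul_left (s - r)).add (h2.mul_left (s - q))).trans (dvd_of_eq (by rw [hD]; ring))
    have a2 : (n : ℤ) ∣ D * b := 
      ((h1.mul_left (s + r)).sub (h2.mul_left (s + q))).trans (dvd_of_eq (by rw [hD]; ring))
    have hg : 0 < Int.gcd n D := Int.gcd_pos_of_ne_zero_left _ (by omega)
    obtain ⟨g, h, e, g0, hc, e1, e2⟩ := Int.exists_gcd_one' hg
    have g1 : (g : ℤ) ≠ 0 := by omega
    have key : ∀ c, (n : ℤ) ∣ D * c → h ∣ c := fun c hc' => by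
      rw [e1, e2, mul_right_comm, mul_dvd_mul_iff_right g1] at hc'
      exact Int.dvd_of_dvd_mul_right_of_gcd_one hc' hc
    have a3 := low g0 (h := h) (by rwa [mul_comm, ← e1]) (key _ a1) (key _ a2)
    zify at a3 hn h0 g0
    have a4 : -(q * r) < s * s := by nlinarith
    have : h = 1 := by
      have : 0 < h := by nlinarith
      have : h < 2 := by nlinarith
      omega
    have : e = 1 := by
      have : 0 < e := by nlinarith
      have : e < 2 := by nlinarith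
      omega
    simp_all
  refine ⟨by rw [mul_assoc] at hD; omega, ?_⟩
  by_contra hc
  rw [not_or, not_not] at hc
  obtain ⟨m, rfl⟩ := hc.2
  obtain ⟨k, rfl⟩ : ∃ k, s = 2 * k + 1 := ⟨s / 2, by omega⟩
  push_cast at *
  have a1 : Odd (q * r) := ⟨2 * k * k + 2 * k - m, by linarith⟩
  obtain ⟨⟨q, rfl⟩, r, rfl⟩ := Int.odd_mul.1 a1
  have m0 : (2 * m : ℤ) * 2 ≠ 0 := by omega
  obtain ⟨c1, h1⟩ := h1
  obtain ⟨c2, h2⟩ := h2
  have b1 : (2 : ℤ) ∣ a := ⟨(k - r) * c1 + (k - q) * c2, mul_left_cancel₀ m0 (by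
    linear_combination a * hD + 2 * (k - r) * h1 + 2 * (k - q) * h2)⟩
  have b2 : (2 : ℤ) ∣ b := ⟨(k + r + 1) * c1 - (k + q + 1) * c2, mul_left_cancel₀ m0 (by
    linear_combination b * hD + 2 * (k + r + 1) * h1 - 2 * (k + q + 1) * h2)⟩
  have := low (N := 2 * m) (s := 2 * k + 1) (h := 2) (by omega)
    (by convert hP using 1 <;> push_cast <;> ring) b1 b2
  nlinarith

theorem suf {s n : ℤ} (hs : 2 ≤ s) (h1 : 2 * s * s ≤ n)
    (h : (2 * s + 1) * s ≤ n ∨ 2 ∣ n ∧ (2 ∣ s ∨ ¬ 4 ∣ n)) : ∃ a b, PI n s a b := by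
  have bd : ∀ u U : ℤ, -U ≤ u → u ≤ U → -(s * U) ≤ s * u ∧ s * u ≤ s * U := fun u U h1 h2 =>
    ⟨by nlinarith, by nlinarith⟩
  have kk : ∀ V k : ℤ, V = n * k → -(2 * n) < V → V < 2 * n → V = 0 ∨ V = n ∨ V = -n := by
    intro V k h1 h2 h3
    have : k < 2 := by nlinarith
    have : -2 < k := by nlinarith
    rcases (by omega : k = 0 ∨ k = 1 ∨ k = -1) with rfl | rfl | rfl <;> omega
  have s2 : 2 * s ≤ s * s := by nlinarith
  have sm : ∀ u : ℤ, u ≤ -2 ∧ s * u ≤ -(2 * s) ∨ u = -1 ∧ s * u = -s ∨ u = 0 ∧ s * u = 0 ∨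
      u = 1 ∧ s * u = s ∨ 2 ≤ u ∧ 2 * s ≤ s * u := by
    intro u
    rcases (by omega : u ≤ -2 ∨ u = -1 ∨ u = 0 ∨ u = 1 ∨ 2 ≤ u) with h | rfl | rfl | rfl | h
    · exact Or.inl ⟨h, by nlinarith⟩
    · simp
    · simp
    · simp
    · exact Or.inr (Or.inr (Or.inr (Or.inr ⟨h, by nlinarith⟩)))
  by_cases h' : (2 * s + 1) * s ≤ n
  · refine ⟨s, s + 1, fun x y hx hy ⟨k, hk⟩ => ?_⟩
    rw [abs_lt] at hx hy
    have b := bd (x + y) (2 * s - 1) (by omega) (by omega)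
    have := kk (s * (x + y) + y) k (by linarith) (by linarith) (by linarith)
    have e : s * (2 * s - 1) + 2 * s ≤ n := by linarith
    have := sm (x + y)
    omega
  by_cases h2 : 2 ∣ s
  · refine ⟨s - 1, s + 1, fun x y hx hy ⟨k, hk⟩ => ?_⟩
    rw [abs_lt] at hx hy
    have b := bd (x + y) (2 * s - 1) (by omega) (by omega)
    have := kk (s * (x + y) + (y - x)) k (by linarith) (by linarith) (by linarith)
    have e : s * (2 * s - 2) + 2 * s ≤ n := by linarith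
    have := sm (x + y)
    have := bd (x + y) (2 * s - 2)
    have := h2.mul_right (x + y)
    omega
  · refine ⟨s - 2, s + 2, fun x y hx hy ⟨k, hk⟩ => ?_⟩
    rw [abs_lt] at hx hy
    have b := bd (x + y) (2 * s - 1) (by omega) (by omega)
    have := kk (s * (x + y) + 2 * (y - x)) k (by linarith) (by linarith) (by linarith)
    have e : s * (2 * s - 4) + 4 * s ≤ n := by linarith
    have := bd (x + y) (2 * s - 4)
    obtain ⟨j, hj⟩ : ∃ j, s = 2 * j + 1 := ⟨s / 2, by omega⟩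
    have e1 : s * (x + y) = 2 * (j * (x + y)) + (x + y) := by rw [hj]; ring
    obtain ⟨w, hw⟩ : ∃ w, x + y = 2 * w := ⟨(x + y) / 2, by omega⟩
    have e2 : s * (x + y) = 2 * (s * w) := by rw [hw]; ring
    have e3 : s * w = 2 * (j * w) + w := by rw [hj]; ring
    have := sm w
    omega

theorem pair_iff {n s t : ℕ} [NeZero n] (hs : 2 ≤ s) (ht : t + 1 = 2 * s) :
    2 ≤ tau (ZMod n) t ↔ ∃ a b : ℤ, PI n s a b := by
  classical
  rw [tau, Finset.le_sup_iff (by simp)]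
  constructor
  · rintro ⟨A, hA, h⟩
    obtain ⟨a, ha, b, hb, hab⟩ := one_lt_card.1 h
    refine ⟨a.cast, b.cast, fun x y hx hy hd => ?_⟩
    have e : ∀ {M : Type} [AddCommMonoid M] (f : ZMod n → ℤ → M), (∀ g, f g 0 = 0) →
        ∑ g ∈ A, f g (if g = a then x else if g = b then y else 0) = f a x + f b y := by
      intro M _ f hf
      rw [sum_eq_add a b hab (fun c _ hc => by rw [if_neg hc.1, if_neg hc.2, hf])
        (fun h => absurd ha h) (fun h => absurd hb h), if_pos rfl, if_neg hab.symm, if_pos rfl]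
    have := (mem_filter.1 hA).2 (fun g => if g = a then x else if g = b then y else 0)
      (by rw [e (fun _ z => |z|) (by simp)]; rw [abs_lt] at hx hy; cases abs_cases x <;>
        cases abs_cases y <;> omega)
      (by rw [e (fun g z => z • g) (by simp)]; simpa using (ZMod.intCast_zmod_eq_zero_iff_dvd _ n).2 hd)
    have h1 := this a ha
    have h2 := this b hb
    simp only [if_pos, if_neg hab.symm] at h1 h2
    exact ⟨h1, h2⟩
  · rintro ⟨a, b, h⟩
    have key : ∀ x y : ℤ, |x| + |y| ≤ t → x • (a : ZMod n) + y • (b : ZMod n) = 0 → x = 0 ∧ y = 0 := by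
      intro x y h1 h2
      refine h x y ((abs_add_le _ _).trans_lt (by omega)) ((abs_sub _ _).trans_lt (by omega)) ?_
      rw [← ZMod.intCast_zmod_eq_zero_iff_dvd]; simpa using h2
    have hab : (a : ZMod n) ≠ b := fun e => by
      have := key 1 (-1) (by simp; omega) (by simp [e])
      omega
    refine ⟨{(a : ZMod n), (b : ZMod n)}, mem_filter.2 ⟨mem_univ _, fun l h1 h2 => ?_⟩,
      by rw [card_pair hab]⟩
    rw [sum_pair hab] at h1 h2
    simpa using key _ _ h1 h2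

theorem one_iff {n t : ℕ} [NeZero n] : 1 ≤ tau (ZMod n) t ↔ t + 1 ≤ n := by
  classical
  rw [tau, Finset.le_sup_iff (by simp)]
  constructor
  · rintro ⟨A, hA, h⟩
    obtain ⟨a, ha⟩ := card_pos.1 h
    by_contra hc
    have := (mem_filter.1 hA).2 (fun g => if g = a then n else 0)
      (by simp [apply_ite abs, ha]; omega) (by simp [ite_smul]) a ha
    simp [NeZero.ne n] at this
  · refine fun h => ⟨{1}, mem_filter.2 ⟨mem_univ _, fun l h1 h2 => ?_⟩, by simp⟩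
    simp only [sum_singleton, zsmul_eq_mul, mul_one, mem_singleton, forall_eq] at *
    exact Int.eq_zero_of_abs_lt_dvd ((ZMod.intCast_zmod_eq_zero_iff_dvd _ n).1 h2) (by omega)

theorem result (t n : ℕ) [NeZero n] (ht : Odd t) (h3 : 3 ≤ t) :
    tau (ZMod n) t = 1 ↔ (t + 1 ≤ n ∧ n ≤ t ^ 2 / 2 + t) ∨
      (t ^ 2 / 2 + t + 2 ≤ n ∧ n ≤ t ^ 2 / 2 + t + (t + 1) / 2 ∧
        (Odd n ∨ (t % 4 = 1 ∧ 4 ∣ n))) := by
  obtain ⟨k, rfl⟩ := ht
  have n0 := NeZero.pos n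
  have h1 := one_iff (n := n) (t := 2 * k + 1)
  have h2 := pair_iff (n := n) (s := k + 1) (t := 2 * k + 1) (by omega) (by omega)
  have e1 : (2 * k + 1) ^ 2 = 4 * (k * k) + 4 * k + 1 := by ring
  have e2 : 2 * (k + 1) * (k + 1) = 2 * (k * k) + 4 * k + 2 := by ring
  have e3 : (2 * (k + 1) + 1) * (k + 1) = 2 * (k * k) + 5 * k + 3 := by ring
  have e4 : k * k % 2 = k % 2 := by rcases Nat.mod_two_eq_zero_or_one k with h | h <;> simp [Nat.mul_mod, h]
  have h4 : 2 ≤ tau (ZMod n) (2 * k + 1) ↔ 2 * (k + 1) * (k + 1) ≤ n ∧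
      ((2 * (k + 1) + 1) * (k + 1) ≤ n ∨ 2 ∣ n ∧ (2 ∣ k + 1 ∨ ¬ 4 ∣ n)) := by
    rw [h2]
    refine ⟨fun ⟨a, b, h⟩ => ⟨low (h := 1) n0 (by rwa [mul_one]) (one_dvd _) (one_dvd _), ?_⟩,
      fun h => suf (by omega) (by exact_mod_cast h.1) (by exact_mod_cast h.2)⟩
    exact (le_or_gt _ _).imp_right (nec n0 h)
  rw [Nat.odd_iff, e1]
  rw [e2, e3] at h4
  omega

end Pool.Agent.Results.MP_c28122_co.Classification
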